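import Pool.Agent.H2.WalkSum

set_option autoImplicit false

namespace Pool.Agent.Results.MP_46c8ea_co.ExactFormula

open Pool.Agent.H2.WalkSum

/-- Exact value of the weighted walk sum `B_3(2m+1)` for every `m ≥ 2`. -/
theorem result : ∀ m : ℕ, 2 ≤ m →
    B 3 (2 * m + 1) =
      3 * ((m : ℝ) + 2) / (1024 * 4 ^ m * (m : ℝ) ^ 2 * ((m : ℝ) + 1) ^ 3 * (2 * (m : ℝ) - 1) *
        (2 * (m : ℝ) + 3) * ((2 * m).factorial : ℝ)) :=
  fun m hm => B3_closed m hm

end Pool.Agent.Results.MP_46c8ea_co.ExactFormula
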