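import Pool.Agent.H2.WalkSum

set_option autoImplicit false

namespace Pool.Agent.Results.MP_46c8ea_co.LiteralDisproof

open Pool.Agent.H2.WalkSum Filter

/-- For every `C > 0` the lower bound `|B_3(2m+1)| ≥ C^m / m!` fails for all large `m`. -/
theorem result : ∀ C : ℝ, 0 < C → ∃ M : ℕ, ∀ m : ℕ, M ≤ m →
    |B 3 (2 * m + 1)| < C ^ m / (m.factorial : ℝ) := by
  intro C hC
  have ht := FloorSemiring.tendsto_pow_div_factorial_atTop (1 / C)
  have hev := ht.eventually (gt_mem_nhds (show (0 : ℝ) < 1 by norm_num))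
  obtain ⟨M, hM⟩ := eventually_atTop.1 hev
  refine ⟨max M 2, fun m hm => ?_⟩
  have hm2 : 2 ≤ m := le_trans (le_max_right _ _) hm
  have h1 := hM m (le_trans (le_max_left _ _) hm)
  rw [B3_closed m hm2]
  have hmr : (2 : ℝ) ≤ m := by exact_mod_cast hm2
  have hf : (0 : ℝ) < (m.factorial : ℝ) := by positivity
  have hff : (m.factorial : ℝ) * (m.factorial : ℝ) ≤ ((2 * m).factorial : ℝ) := by
    have := Nat.factorial_mul_factorial_dvd_factorial_add m m
    have h2 := Nat.le_of_dvd (Nat.factorial_pos _) this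
    rw [← two_mul] at h2
    exact_mod_cast h2
  have hpos : (0 : ℝ) < 1024 * 4 ^ m * (m : ℝ) ^ 2 * ((m : ℝ) + 1) ^ 3 * (2 * (m : ℝ) - 1) *
        (2 * (m : ℝ) + 3) := by
    have : (0 : ℝ) < 2 * (m : ℝ) - 1 := by linarith
    positivity
  have hbig : 3 * ((m : ℝ) + 2) ≤ 1024 * 4 ^ m * (m : ℝ) ^ 2 * ((m : ℝ) + 1) ^ 3 *
      (2 * (m : ℝ) - 1) * (2 * (m : ℝ) + 3) := by
    have e1 : (1 : ℝ) ≤ 4 ^ m := one_le_pow₀ (by norm_num)
    have e2 : (1 : ℝ) ≤ (m : ℝ) ^ 2 := one_le_pow₀ (by linarith)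
    have e3 : (m : ℝ) + 2 ≤ ((m : ℝ) + 1) ^ 3 := by nlinarith [sq_nonneg (m : ℝ)]
    have e4 : (1 : ℝ) ≤ (2 * (m : ℝ) - 1) := by linarith
    have e5 : (1 : ℝ) ≤ (2 * (m : ℝ) + 3) := by linarith
    calc 3 * ((m : ℝ) + 2) ≤ 1024 * 1 * 1 * ((m : ℝ) + 2) * 1 * 1 := by nlinarith
      _ ≤ _ := by gcongr
  rw [abs_of_nonneg (by
    apply div_nonneg
    · positivity
    · positivity)]
  calc 3 * ((m : ℝ) + 2) / (1024 * 4 ^ m * (m : ℝ) ^ 2 * ((m : ℝ) + 1) ^ 3 * (2 * (m : ℝ) - 1) *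
        (2 * (m : ℝ) + 3) * ((2 * m).factorial : ℝ))
      ≤ 1 / ((2 * m).factorial : ℝ) := by
        rw [div_le_div_iff₀ (by positivity) (by positivity)]
        have : (0 : ℝ) ≤ ((2 * m).factorial : ℝ) := by positivity
        nlinarith
    _ ≤ 1 / ((m.factorial : ℝ) * (m.factorial : ℝ)) := by
        apply one_div_le_one_div_of_le (by positivity) hff
    _ < C ^ m / (m.factorial : ℝ) := by
        rw [one_div_pow, div_div, div_lt_one (by positivity)] at h1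
        rw [div_lt_div_iff₀ (by positivity) hf]
        have := mul_lt_mul_of_pos_right h1 hf
        nlinarith

end Pool.Agent.Results.MP_46c8ea_co.LiteralDisproof
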