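import Pool.Agent.H2.WalkSum

set_option autoImplicit false

namespace Pool.Agent.Results.MP_46c8ea_co.TwoSided

open Pool.Agent.H2.WalkSum Filter

/-- `B_3(2m+1)` is of exact size `(const)^m / (m!)^2`. -/
theorem result : ∃ C : ℝ, 0 < C ∧ ∀ m : ℕ, 2 ≤ m →
    C ^ m / (m.factorial : ℝ) ^ 2 ≤ |B 3 (2 * m + 1)| ∧
      |B 3 (2 * m + 1)| ≤ 1 / (m.factorial : ℝ) ^ 2 := by
  refine ⟨1 / 2 ^ 20, by norm_num, fun m hm2 => ?_⟩
  rw [B3_closed m hm2]
  have hmr : (2 : ℝ) ≤ m := by exact_mod_cast hm2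
  have hf : (0 : ℝ) < (m.factorial : ℝ) := by positivity
  have hff : (m.factorial : ℝ) * (m.factorial : ℝ) ≤ ((2 * m).factorial : ℝ) := by
    have := Nat.factorial_mul_factorial_dvd_factorial_add m m
    have h2 := Nat.le_of_dvd (Nat.factorial_pos _) this
    rw [← two_mul] at h2
    exact_mod_cast h2
  have hup : ((2 * m).factorial : ℝ) ≤ 4 ^ m * ((m.factorial : ℝ) * (m.factorial : ℝ)) := by
    have h1 : (2 * m).factorial = Nat.centralBinom m * (m.factorial * m.factorial) := by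
      rw [Nat.centralBinom_eq_two_mul_choose]
      have := Nat.choose_mul_factorial_mul_factorial (show m ≤ 2 * m by omega)
      rw [show 2 * m - m = m by omega] at this
      rw [← this]; ring
    have h2 : Nat.centralBinom m ≤ 4 ^ m := by
      rw [Nat.centralBinom_eq_two_mul_choose]
      calc Nat.choose (2 * m) m ≤ ∑ i ∈ Finset.range (2 * m + 1), Nat.choose (2 * m) i :=
            Finset.single_le_sum (f := fun i => Nat.choose (2 * m) i) (fun _ _ => Nat.zero_le _)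
              (Finset.mem_range.2 (by omega))
        _ = 2 ^ (2 * m) := Nat.sum_range_choose _
        _ = 4 ^ m := by rw [pow_mul]; norm_num
    rw [h1]
    push_cast
    have h3 : ((Nat.centralBinom m : ℕ) : ℝ) ≤ 4 ^ m := by exact_mod_cast h2
    gcongr
  have hpos1 : (0 : ℝ) < 2 * (m : ℝ) - 1 := by linarith
  rw [abs_of_nonneg (by
    apply div_nonneg
    · positivity
    · positivity)]
  constructor
  · -- lower bound
    have hmp : (m : ℝ) + 1 ≤ 2 ^ m := by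
      have h : m + 1 ≤ 2 ^ m := Nat.lt_two_pow_self
      exact_mod_cast h
    have hm0 : (m : ℝ) ≤ 2 ^ m := by linarith
    have h4 : (2 * (m : ℝ) - 1) ≤ 2 * 2 ^ m := by linarith
    have h5 : (2 * (m : ℝ) + 3) ≤ 3 * 2 ^ m := by nlinarith
    have h6 : (2048 : ℝ) ≤ 2 ^ (5 * m + 1) := by
      have : 11 ≤ 5 * m + 1 := by omega
      calc (2048 : ℝ) = 2 ^ 11 := by norm_num
        _ ≤ 2 ^ (5 * m + 1) := pow_le_pow_right₀ (by norm_num) this
    have hden : 1024 * 4 ^ m * (m : ℝ) ^ 2 * ((m : ℝ) + 1) ^ 3 * (2 * (m : ℝ) - 1) *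
        (2 * (m : ℝ) + 3) * ((2 * m).factorial : ℝ) ≤
        3 * ((m : ℝ) + 2) * (2 ^ (20 * m) * (m.factorial : ℝ) ^ 2) := by
      calc 1024 * 4 ^ m * (m : ℝ) ^ 2 * ((m : ℝ) + 1) ^ 3 * (2 * (m : ℝ) - 1) *
          (2 * (m : ℝ) + 3) * ((2 * m).factorial : ℝ)
          ≤ 1024 * 4 ^ m * (2 ^ m) ^ 2 * (2 ^ m) ^ 3 * (2 * 2 ^ m) * (3 * 2 ^ m) *
            (4 ^ m * ((m.factorial : ℝ) * (m.factorial : ℝ))) := by
            gcongr
        _ = 3 * 2048 * ((2 : ℝ) ^ (11 * m)) * (m.factorial : ℝ) ^ 2 := by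
            have e4 : (4 : ℝ) ^ m = 2 ^ (2 * m) := by rw [pow_mul]; norm_num
            rw [e4]
            have : (2 : ℝ) ^ (11 * m) = (2 ^ m) ^ 7 * (2 ^ (2 * m)) ^ 2 := by
              rw [← pow_mul, ← pow_mul, ← pow_add]; congr 1; ring
            rw [this]; ring
        _ ≤ 3 * 2 ^ (5 * m + 1) * ((2 : ℝ) ^ (11 * m)) * (m.factorial : ℝ) ^ 2 := by
            gcongr
        _ = 3 * 2 * (2 ^ (16 * m) * (m.factorial : ℝ) ^ 2) := by
            have : (2 : ℝ) ^ (16 * m) = 2 ^ (5 * m) * 2 ^ (11 * m) := by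
              rw [← pow_add]; congr 1; ring
            rw [this, pow_succ]; ring
        _ ≤ 3 * ((m : ℝ) + 2) * (2 ^ (20 * m) * (m.factorial : ℝ) ^ 2) := by
            have : (2 : ℝ) ^ (16 * m) ≤ 2 ^ (20 * m) := pow_le_pow_right₀ (by norm_num) (by omega)
            gcongr
            linarith
    rw [one_div, inv_pow, ← pow_mul, div_le_div_iff₀ (by positivity) (by positivity)]
    have e : (2 : ℝ) ^ (20 * m) * ((2 : ℝ) ^ (20 * m))⁻¹ = 1 := mul_inv_cancel₀ (by positivity)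
    have hinv : (0 : ℝ) < ((2 : ℝ) ^ (20 * m))⁻¹ := by positivity
    calc ((2 : ℝ) ^ (20 * m))⁻¹ * (1024 * 4 ^ m * (m : ℝ) ^ 2 * ((m : ℝ) + 1) ^ 3 *
          (2 * (m : ℝ) - 1) * (2 * (m : ℝ) + 3) * ((2 * m).factorial : ℝ))
        ≤ ((2 : ℝ) ^ (20 * m))⁻¹ * (3 * ((m : ℝ) + 2) * (2 ^ (20 * m) * (m.factorial : ℝ) ^ 2)) :=
          mul_le_mul_of_nonneg_left hden hinv.le
      _ = (2 ^ (20 * m) * ((2 : ℝ) ^ (20 * m))⁻¹) * (3 * ((m : ℝ) + 2) * (m.factorial : ℝ) ^ 2) := by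
          ring
      _ = 3 * ((m : ℝ) + 2) * (m.factorial : ℝ) ^ 2 := by rw [e, one_mul]
  · have hbig : 3 * ((m : ℝ) + 2) ≤ 1024 * 4 ^ m * (m : ℝ) ^ 2 * ((m : ℝ) + 1) ^ 3 *
        (2 * (m : ℝ) - 1) * (2 * (m : ℝ) + 3) := by
      have e1 : (1 : ℝ) ≤ 4 ^ m := one_le_pow₀ (by norm_num)
      have e2 : (1 : ℝ) ≤ (m : ℝ) ^ 2 := one_le_pow₀ (by linarith)
      have e3 : (m : ℝ) + 2 ≤ ((m : ℝ) + 1) ^ 3 := by nlinarith [sq_nonneg (m : ℝ)]
      have e4 : (1 : ℝ) ≤ (2 * (m : ℝ) - 1) := by linarith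
      have e5 : (1 : ℝ) ≤ (2 * (m : ℝ) + 3) := by linarith
      calc 3 * ((m : ℝ) + 2) ≤ 1024 * 1 * 1 * ((m : ℝ) + 2) * 1 * 1 := by nlinarith
        _ ≤ _ := by gcongr
    calc 3 * ((m : ℝ) + 2) / (1024 * 4 ^ m * (m : ℝ) ^ 2 * ((m : ℝ) + 1) ^ 3 *
          (2 * (m : ℝ) - 1) * (2 * (m : ℝ) + 3) * ((2 * m).factorial : ℝ))
        ≤ 1 / ((2 * m).factorial : ℝ) := by
          rw [div_le_div_iff₀ (by positivity) (by positivity)]
          have : (0 : ℝ) ≤ ((2 * m).factorial : ℝ) := by positivity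
          nlinarith
      _ ≤ 1 / (m.factorial : ℝ) ^ 2 := by
          rw [sq]
          apply one_div_le_one_div_of_le (by positivity) hff

end Pool.Agent.Results.MP_46c8ea_co.TwoSided
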